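import Mathlib

set_option autoImplicit false

namespace Pool.Agent.Results.MP_4aa424_co.FirstFitChordal

/-- Colours (positive integers) that First-Fit gives to the vertices of a graph `H` on `Fin n`
when the vertices are presented in the order `0, 1, ..., n-1`: the least positive integer not
used on an earlier neighbour. -/
noncomputable def ffColour {n : ℕ} (H : SimpleGraph (Fin n)) (v : Fin n) : ℕ :=
  sInf {c : ℕ | 1 ≤ c ∧ ∀ u : Fin n, ∀ _h : u < v, H.Adj u v → ffColour H u ≠ c}
termination_by v.val
decreasing_by exact _h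

/-- First-Fit chromatic number: the largest number of colours First-Fit uses on `G`,
over all orderings `σ` of the vertices (`σ i` is the vertex presented at time `i`). -/
noncomputable def chiFF {n : ℕ} (G : SimpleGraph (Fin n)) : ℕ :=
  Finset.univ.sup fun σ : Equiv.Perm (Fin n) =>
    (Finset.univ.image (ffColour (G.comap σ))).card

/-- A graph is chordal if every cycle `f 0, f 1, ..., f (m-1)` of length `m ≥ 4`
has a chord, an edge joining two non-consecutive vertices of the cycle. -/
def IsChordal {V : Type} (G : SimpleGraph V) : Prop :=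
  ∀ m : ℕ, 4 ≤ m → ∀ f : ZMod m → V, Function.Injective f → (∀ i, G.Adj (f i) (f (i + 1))) →
    ∃ i j : ZMod m, j ≠ i + 1 ∧ i ≠ j + 1 ∧ G.Adj (f i) (f j)

/-- Sanity: the set in the definition of `ffColour` is never empty. -/
lemma ff_mem {n : ℕ} (H : SimpleGraph (Fin n)) (v : Fin n) :
    1 ≤ ffColour H v ∧ ∀ u : Fin n, u < v → H.Adj u v → ffColour H u ≠ ffColour H v := by
  have hne : {c : ℕ | 1 ≤ c ∧ ∀ u : Fin n, ∀ _h : u < v,
      H.Adj u v → ffColour H u ≠ c}.Nonempty := by
    refine ⟨1 + Finset.univ.sup (ffColour H), by simp, ?_⟩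
    intro u _ _ h
    have := Finset.le_sup (f := ffColour H) (Finset.mem_univ u)
    omega
  have h := Nat.sInf_mem hne
  have e : ffColour H v = sInf {c : ℕ | 1 ≤ c ∧ ∀ u : Fin n, ∀ _h : u < v,
      H.Adj u v → ffColour H u ≠ c} := by
    rw [ffColour]
  rw [← e] at h
  exact ⟨h.1, h.2⟩

/-- Sanity: First-Fit produces a proper colouring. -/
lemma ff_proper {n : ℕ} (H : SimpleGraph (Fin n)) {u v : Fin n} (h : H.Adj u v) :
    ffColour H u ≠ ffColour H v := by
  rcases lt_trichotomy u v with hlt | rfl | hlt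
  · exact (ff_mem H v).2 u hlt h
  · exact absurd h (H.loopless.irrefl u)
  · exact ((ff_mem H u).2 v hlt h.symm).symm

/-- A partial wall: `W` a set of vertices, with levels `1..t`, independent levels, and every vertex
of level `j` has in each level `1 ≤ i < j` a neighbour. Then First-Fit uses at least `t` colours. -/
lemma wall {n : ℕ} (G : SimpleGraph (Fin n)) (t : ℕ) (W : Set (Fin n)) (lev : Fin n → ℕ)
    (h1 : ∀ v ∈ W, 1 ≤ lev v ∧ lev v ≤ t)
    (h2 : ∀ u ∈ W, ∀ v ∈ W, G.Adj u v → lev u ≠ lev v)
    (h3 : ∀ v ∈ W, ∀ i, 1 ≤ i → i < lev v → ∃ u ∈ W, G.Adj u v ∧ lev u = i)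
    (h4 : ∀ i, 1 ≤ i → i ≤ t → ∃ u ∈ W, lev u = i) :
    t ≤ chiFF G := by
  classical
  set key : Fin n → ℕ := fun v => if v ∈ W then lev v else t + 1 with hkey
  set σ : Equiv.Perm (Fin n) := Tuple.sort key with hσ
  have hmono : Monotone (key ∘ σ) := Tuple.monotone_sort key
  have hcol : ∀ N : ℕ, ∀ x : Fin n, x.val = N → σ x ∈ W →
      ffColour (G.comap σ) x = lev (σ x) := by
    intro N
    induction N using Nat.strong_induction_on with
    | _ N ih =>
      intro x hxN hx
      have hkx : key (σ x) = lev (σ x) := by simp [hkey, hx]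
      have hLt := h1 _ hx
      have hmem : lev (σ x) ∈ {c : ℕ | 1 ≤ c ∧ ∀ u : Fin n, ∀ _h : u < x,
          (G.comap σ).Adj u x → ffColour (G.comap σ) u ≠ c} := by
        refine ⟨hLt.1, ?_⟩
        intro u hu hadj
        have hle : key (σ u) ≤ key (σ x) := hmono hu.le
        have huW : σ u ∈ W := by
          by_contra hnot
          have : key (σ u) = t + 1 := by simp [hkey, hnot]
          omega
        rw [ih u.val (by rw [← hxN]; exact hu) u rfl huW]
        exact h2 _ huW _ hx (by simpa using hadj)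
      rw [ffColour]
      apply le_antisymm
      · exact Nat.sInf_le hmem
      · apply le_csInf ⟨_, hmem⟩
        intro c hc
        by_contra hlt
        push Not at hlt
        obtain ⟨w, hwW, hwadj, hwl⟩ := h3 _ hx c hc.1 hlt
        have hσu : σ (σ.symm w) = w := σ.apply_symm_apply w
        have hux : σ.symm w < x := by
          by_contra hge
          push Not at hge
          have hle : key (σ x) ≤ key (σ (σ.symm w)) := hmono hge
          have : key w = lev w := by simp [hkey, hwW]
          rw [hσu, this, hkx] at hle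
          omega
        have hc2 := hc.2 (σ.symm w) hux (by simpa [hσu] using hwadj)
        apply hc2
        rw [ih (σ.symm w).val (by rw [← hxN]; exact hux) _ rfl (by rw [hσu]; exact hwW), hσu, hwl]
  have hcard : t ≤ (Finset.univ.image (ffColour (G.comap σ))).card := by
    have hsub : Finset.Icc 1 t ⊆ Finset.univ.image (ffColour (G.comap σ)) := by
      intro i hi
      rw [Finset.mem_Icc] at hi
      obtain ⟨u, huW, hul⟩ := h4 i hi.1 hi.2
      rw [Finset.mem_image]
      refine ⟨σ.symm u, Finset.mem_univ _, ?_⟩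
      rw [hcol _ _ rfl (by rw [σ.apply_symm_apply]; exact huW), σ.apply_symm_apply, hul]
    calc t = (Finset.Icc 1 t).card := by simp
      _ ≤ _ := Finset.card_le_card hsub
  exact hcard.trans (Finset.le_sup (f := fun σ : Equiv.Perm (Fin n) =>
    (Finset.univ.image (ffColour (G.comap σ))).card) (Finset.mem_univ σ))

/-- `p` is the parent of `q` in the binomial tree on the natural numbers. -/
def Par (p q : ℕ) : Prop := ∃ j, 2 ^ (j + 1) ∣ p ∧ q = p + 2 ^ j

/-- size of the clique put at node `q`. -/
def bag (k q : ℕ) : ℕ := if q = 0 then k - k / 2 else k / 2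

lemma par_lt {p q : ℕ} (h : Par p q) : p < q := by
  obtain ⟨j, _, rfl⟩ := h
  have : 0 < 2 ^ j := by positivity
  omega

lemma par_unique_aux {p p' j j' : ℕ} (hj : j < j') (h1 : 2 ^ (j + 1) ∣ p)
    (h2 : 2 ^ (j' + 1) ∣ p') (h : p + 2 ^ j = p' + 2 ^ j') : False := by
  have a : 2 ^ (j + 1) ∣ p' := (pow_dvd_pow 2 (by omega)).trans h2
  have b : 2 ^ (j + 1) ∣ 2 ^ j' := pow_dvd_pow 2 (by omega)
  have c : 2 ^ (j + 1) ∣ p + 2 ^ j := by rw [h]; exact dvd_add a b
  have d : 2 ^ (j + 1) ∣ 2 ^ j := (Nat.dvd_add_right h1).mp c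
  have := Nat.le_of_dvd (by positivity) d
  rw [pow_succ] at this
  have : 0 < 2 ^ j := by positivity
  omega

lemma par_unique {p p' q : ℕ} (h : Par p q) (h' : Par p' q) : p = p' := by
  obtain ⟨j, h1, rfl⟩ := h
  obtain ⟨j', h2, h3⟩ := h'
  rcases lt_trichotomy j j' with hlt | rfl | hlt
  · exact (par_unique_aux hlt h1 h2 h3).elim
  · omega
  · exact (par_unique_aux hlt h2 h1 h3.symm).elim

/-- The graph: the binomial tree with cliques put on its nodes. -/
def tg (k n : ℕ) : SimpleGraph (Fin n) where
  Adj x y := x ≠ y ∧ x.val % k < bag k (x.val / k) ∧ y.val % k < bag k (y.val / k) ∧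
    (x.val / k = y.val / k ∨ Par (x.val / k) (y.val / k) ∨ Par (y.val / k) (x.val / k))
  symm := ⟨by
    rintro x y ⟨h1, h2, h3, h4⟩
    refine ⟨h1.symm, h3, h2, ?_⟩
    rcases h4 with h | h | h
    · exact Or.inl h.symm
    · exact Or.inr (Or.inr h)
    · exact Or.inr (Or.inl h)⟩
  loopless := ⟨fun x h => h.1 rfl⟩

lemma tg_chordal (k n : ℕ) : IsChordal (tg k n) := by
  intro m hm f hf hadj
  have : NeZero m := ⟨by omega⟩
  obtain ⟨i, hi⟩ := Finite.exists_max (fun i : ZMod m => (f i).val / k)
  have hcast : ∀ a : ℕ, 0 < a → a < m → ((a : ℕ) : ZMod m) ≠ 0 := by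
    intro a ha1 ha2 h0
    rw [ZMod.natCast_eq_zero_iff] at h0
    have := Nat.le_of_dvd ha1 h0
    omega
  have h1 : (1 : ZMod m) ≠ 0 := by simpa using hcast 1 (by omega) (by omega)
  have h2 : (2 : ZMod m) ≠ 0 := by simpa using hcast 2 (by omega) (by omega)
  have h3 : (3 : ZMod m) ≠ 0 := by simpa using hcast 3 (by omega) (by omega)
  have ha := hadj (i - 1)
  have hb := hadj i
  rw [sub_add_cancel] at ha
  have hia := hi (i - 1)
  have hib := hi (i + 1)
  refine ⟨i - 1, i + 1, ?_, ?_, ?_⟩
  · intro h
    apply h1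
    have : (i + 1) - (i - 1 + 1) = (0 : ZMod m) := sub_eq_zero.mpr h
    linear_combination this
  · intro h
    apply h3
    have : (i - 1) - (i + 1 + 1) = (0 : ZMod m) := sub_eq_zero.mpr h
    linear_combination -this
  · have hne : f (i - 1) ≠ f (i + 1) := by
      intro h
      have h := hf h
      apply h2
      have : (i - 1) - (i + 1) = (0 : ZMod m) := sub_eq_zero.mpr h
      linear_combination -this
    obtain ⟨_, ha1, ha2, ha3⟩ := ha
    obtain ⟨_, hb1, hb2, hb3⟩ := hb
    refine ⟨hne, ha1, hb2, ?_⟩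
    have ha4 : (f (i - 1)).val / k = (f i).val / k ∨ Par ((f (i - 1)).val / k) ((f i).val / k) := by
      rcases ha3 with h | h | h
      · exact Or.inl h
      · exact Or.inr h
      · exact absurd (par_lt h) (by simpa using hia)
    have hb4 : (f (i + 1)).val / k = (f i).val / k ∨ Par ((f (i + 1)).val / k) ((f i).val / k) := by
      rcases hb3 with h | h | h
      · exact Or.inl h.symm
      · exact absurd (par_lt h) (by simpa using hib)
      · exact Or.inr h
    rcases ha4 with h | h <;> rcases hb4 with h' | h'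
    · left; rw [h, h']
    · right; right; rw [h]; exact h'
    · right; left; rw [h']; exact h
    · left; exact par_unique h h'

lemma tg_cliqueNum (k n : ℕ) (hk : 2 ≤ k) (hn : 2 * k ≤ n) : (tg k n).cliqueNum = k := by
  classical
  apply le_antisymm
  · obtain ⟨s, hs⟩ := (tg k n).exists_isNClique_cliqueNum
    rw [← hs.card_eq]
    rcases s.eq_empty_or_nonempty with rfl | hne
    · simp
    obtain ⟨x, hxs, hx⟩ := s.exists_max_image (fun y : Fin n => y.val / k) hne
    have key : ∀ y ∈ s, y.val % k < bag k (y.val / k) ∨ s = {y} := by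
      intro y hy
      by_cases h : ∃ z ∈ s, z ≠ y
      · obtain ⟨z, hz, hzy⟩ := h
        exact Or.inl (hs.isClique hz hy hzy).2.2.1
      · push Not at h
        right
        ext z
        simp only [Finset.mem_singleton]
        exact ⟨fun hz => h z hz, fun hz => hz ▸ hy⟩
    by_cases hone : ∃ y, s = {y}
    · obtain ⟨y, rfl⟩ := hone
      simp; omega
    push Not at hone
    have key1 : ∀ y ∈ s, y.val % k < bag k (y.val / k) := fun y hy =>
      (key y hy).resolve_right (hone y)
    have key2 : ∀ y ∈ s, y.val / k = x.val / k ∨ Par (y.val / k) (x.val / k) := by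
      intro y hy
      by_cases hyx : y = x
      · left; rw [hyx]
      · rcases (hs.isClique hy hxs hyx).2.2.2 with h | h | h
        · exact Or.inl h
        · exact Or.inr h
        · have := par_lt h
          have := hx y hy
          omega
    have hcard : s.card ≤ (Finset.range k).card := by
      apply Finset.card_le_card_of_injOn
        (fun y : Fin n => if y.val / k = x.val / k ∧ x.val / k ≠ 0 then (k - k / 2) + y.val % k
          else y.val % k)
      · intro y hy
        simp only [Finset.coe_range, Set.mem_Iio]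
        split_ifs with hc
        · have := key1 y hy
          rw [hc.1] at this
          simp only [bag, hc.2, if_false] at this
          omega
        · exact Nat.mod_lt _ (by omega)
      · intro y hy z hz hyz
        simp only at hyz
        have hy1 := key1 y hy
        have hz1 := key1 z hz
        have ey := Nat.div_add_mod y.val k
        have ez := Nat.div_add_mod z.val k
        have hyz' : y.val / k = z.val / k ∧ y.val % k = z.val % k := by
          by_cases h0 : x.val / k = 0
          · have hq : ∀ w ∈ s, w.val / k = x.val / k := by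
              intro w hw
              rcases key2 w hw with h | h
              · exact h
              · have hlt := par_lt h
                rw [h0] at hlt
                exact absurd hlt (Nat.not_lt_zero _)
            simp only [h0, ne_eq, not_true_eq_false, and_false, if_false] at hyz
            exact ⟨by rw [hq y hy, hq z hz], hyz⟩
          · simp only [h0, ne_eq, not_false_eq_true, and_true] at hyz
            have hb : ∀ w ∈ s, w.val / k ≠ x.val / k → w.val % k < k - k / 2 := by
              intro w hw _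
              have := key1 w hw
              unfold bag at this
              split_ifs at this <;> omega
            rcases key2 y hy with hy2 | hy2 <;> rcases key2 z hz with hz2 | hz2
            · simp only [hy2, hz2, if_true] at hyz
              exact ⟨by rw [hy2, hz2], by omega⟩
            · have hzx : z.val / k ≠ x.val / k := (par_lt hz2).ne
              simp only [hy2, hzx, if_true, if_false] at hyz
              have := hb z hz hzx
              omega
            · have hyx : y.val / k ≠ x.val / k := (par_lt hy2).ne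
              simp only [hz2, hyx, if_true, if_false] at hyz
              have := hb y hy hyx
              omega
            · have hzx : z.val / k ≠ x.val / k := (par_lt hz2).ne
              have hyx : y.val / k ≠ x.val / k := (par_lt hy2).ne
              simp only [hzx, hyx, if_false] at hyz
              exact ⟨par_unique hy2 hz2, hyz⟩
        apply Fin.ext
        rw [← ey, ← ez, hyz'.1, hyz'.2]
    simpa using hcard
  · -- the clique formed by nodes 0 and 1
    let g : Fin k → Fin n := fun i =>
      if h : i.val < k - k / 2 then ⟨i.val, by omega⟩ else ⟨k + (i.val - (k - k / 2)), by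
        have := i.isLt
        omega⟩
    have hgval : ∀ i : Fin k, (i.val < k - k / 2 ∧ (g i).val = i.val ∧ (g i).val / k = 0 ∧
        (g i).val % k = i.val) ∨ (k - k / 2 ≤ i.val ∧ (g i).val = k + (i.val - (k - k / 2)) ∧
        (g i).val / k = 1 ∧ (g i).val % k = i.val - (k - k / 2)) := by
      intro i
      by_cases h : i.val < k - k / 2
      · left
        have hv : (g i).val = i.val := by simp [g, h]
        refine ⟨h, hv, ?_, ?_⟩
        · rw [hv]; exact Nat.div_eq_of_lt i.isLt
        · rw [hv]; exact Nat.mod_eq_of_lt i.isLt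
      · right
        have hv : (g i).val = k + (i.val - (k - k / 2)) := by simp [g, h]
        have hlt : i.val - (k - k / 2) < k := by have := i.isLt; omega
        refine ⟨by omega, hv, ?_, ?_⟩
        · rw [hv, Nat.add_div_left _ (by omega : 0 < k), Nat.div_eq_of_lt hlt]
        · rw [hv, Nat.add_mod_left, Nat.mod_eq_of_lt hlt]
    have hginj : Function.Injective g := by
      intro i j hij
      have hij' : (g i).val = (g j).val := by rw [hij]
      have hi := i.isLt
      have hj := j.isLt
      apply Fin.ext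
      rcases hgval i with h | h <;> rcases hgval j with h' | h' <;> omega
    have hact : ∀ i : Fin k, (g i).val % k < bag k ((g i).val / k) := by
      intro i
      have hi := i.isLt
      rcases hgval i with h | h
      · rw [h.2.2.1, h.2.2.2]
        simp only [bag, if_true]; exact h.1
      · rw [h.2.2.1, h.2.2.2]
        simp only [bag, one_ne_zero, if_false]; omega
    have hpar : Par 0 1 := ⟨0, by simp, by simp⟩
    have hclique : (tg k n).IsClique ((Finset.univ.image g : Finset (Fin n)) : Set (Fin n)) := by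
      intro x hx y hy hxy
      simp only [Finset.coe_image, Finset.coe_univ, Set.image_univ, Set.mem_range] at hx hy
      obtain ⟨i, rfl⟩ := hx
      obtain ⟨j, rfl⟩ := hy
      refine ⟨hxy, hact i, hact j, ?_⟩
      rcases hgval i with h | h <;> rcases hgval j with h' | h'
      · left; rw [h.2.2.1, h'.2.2.1]
      · right; left; rw [h.2.2.1, h'.2.2.1]; exact hpar
      · right; right; rw [h.2.2.1, h'.2.2.1]; exact hpar
      · left; rw [h.2.2.1, h'.2.2.1]
    have := SimpleGraph.IsClique.card_le_cliqueNum (tc := hclique)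
    rw [Finset.card_image_of_injective _ hginj] at this
    simpa using this

/-- level of a node -/
noncomputable def lv (M q : ℕ) : ℕ := if q = 0 then M else padicValNat 2 q

lemma lv_child {p j : ℕ} (M : ℕ) (h : 2 ^ (j + 1) ∣ p) : lv M (p + 2 ^ j) = j := by
  have hpos : 0 < 2 ^ j := by positivity
  have hne : p + 2 ^ j ≠ 0 := by omega
  unfold lv
  rw [if_neg hne]
  apply le_antisymm
  · by_contra hlt
    push Not at hlt
    have h1 : 2 ^ (j + 1) ∣ p + 2 ^ j := (padicValNat_dvd_iff_le hne).mpr hlt
    have d : 2 ^ (j + 1) ∣ 2 ^ j := (Nat.dvd_add_right h).mp h1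
    have := Nat.le_of_dvd (by positivity) d
    rw [pow_succ] at this
    omega
  · rw [← padicValNat_dvd_iff_le hne]
    exact dvd_add ((pow_dvd_pow 2 (by omega)).trans h) dvd_rfl

lemma lv_le {M q : ℕ} (hq : q < 2 ^ M) : lv M q ≤ M := by
  unfold lv
  split_ifs with h
  · exact le_rfl
  · by_contra hlt
    push Not at hlt
    have h1 : 2 ^ M ∣ q := (padicValNat_dvd_iff_le h).mpr hlt.le
    have := Nat.le_of_dvd (by omega) h1
    omega

lemma lv_dvd {M q j : ℕ} (hj : j < lv M q) : 2 ^ (j + 1) ∣ q := by
  unfold lv at hj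
  split_ifs at hj with h
  · rw [h]; exact dvd_zero _
  · exact (padicValNat_dvd_iff_le h).mpr hj

lemma lv_child_lt {M q j : ℕ} (hq : q < 2 ^ M) (hj : j < lv M q) : q + 2 ^ j < 2 ^ M := by
  have hd := lv_dvd hj
  have hM := lv_le hq
  have hjM : j + 1 ≤ M := by omega
  have hpos : 0 < 2 ^ j := by positivity
  obtain ⟨a, ha⟩ := hd
  obtain ⟨b, hb⟩ : 2 ^ (j + 1) ∣ 2 ^ M := pow_dvd_pow 2 hjM
  have hab : a < b := by
    rw [ha, hb] at hq
    exact lt_of_mul_lt_mul_left hq (Nat.zero_le _)
  have h1 : 2 ^ (j + 1) * (a + 1) ≤ 2 ^ (j + 1) * b := Nat.mul_le_mul_left _ hab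
  rw [ha, hb]
  have h2 : 2 ^ (j + 1) * (a + 1) = 2 ^ (j + 1) * a + 2 ^ (j + 1) := by ring
  have h3 : 2 ^ (j + 1) = 2 ^ j + 2 ^ j := by ring
  omega

lemma lv_par {M p q : ℕ} (h : Par p q) (hq : q < 2 ^ M) : lv M q < lv M p := by
  obtain ⟨j, h1, rfl⟩ := h
  rw [lv_child M h1]
  unfold lv
  split_ifs with h0
  · rw [h0, zero_add] at hq
    exact (Nat.pow_lt_pow_iff_right (by norm_num)).mp hq
  · exact (padicValNat_dvd_iff_le h0).mp h1

lemma tg_wall (k n M : ℕ) (hk : 2 ≤ k) (hM : 2 ^ M * k ≤ n) :
    (M + 1) * (k / 2) ≤ chiFF (tg k n) := by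
  have hs : 0 < k / 2 := by omega
  set s := k / 2 with hsdef
  have hsk : s < k := by omega
  have hbag : ∀ q, s ≤ bag k q := by
    intro q
    unfold bag
    split_ifs <;> omega
  -- vertex at node `q`, position `r`
  have hvert : ∀ q r, q < 2 ^ M → r < s → ∃ u : Fin n, u.val / k = q ∧ u.val % k = r := by
    intro q r hq hr
    have hlt : q * k + r < n := by
      have : (q + 1) * k ≤ 2 ^ M * k := Nat.mul_le_mul_right k hq
      have e : (q + 1) * k = q * k + k := by ring
      omega
    refine ⟨⟨q * k + r, hlt⟩, ?_, ?_⟩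
    · show (q * k + r) / k = q
      rw [Nat.add_comm, Nat.add_mul_div_right _ _ (by omega : 0 < k), Nat.div_eq_of_lt (by omega)]
      omega
    · show (q * k + r) % k = r
      rw [Nat.add_comm, Nat.add_mul_mod_self_right, Nat.mod_eq_of_lt (by omega)]
  have hdecomp : ∀ a b r r' : ℕ, r < s → r' < s → a * s + r + 1 = b * s + r' + 1 →
      a = b ∧ r = r' := by
    intro a b r r' hr hr' h
    have h : a * s + r = b * s + r' := by omega
    have hab : a = b := by
      have e1 : (a * s + r) / s = a := by
        rw [Nat.add_comm, Nat.add_mul_div_right _ _ hs, Nat.div_eq_of_lt hr]; omega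
      have e2 : (b * s + r') / s = b := by
        rw [Nat.add_comm, Nat.add_mul_div_right _ _ hs, Nat.div_eq_of_lt hr']; omega
      rw [← e1, ← e2, h]
    subst hab
    exact ⟨rfl, by omega⟩
  apply wall (tg k n) ((M + 1) * s) {x | x.val / k < 2 ^ M ∧ x.val % k < s}
    (fun x => lv M (x.val / k) * s + x.val % k + 1)
  · rintro v ⟨hv1, hv2⟩
    have := lv_le hv1
    have h2 : lv M (v.val / k) * s ≤ M * s := Nat.mul_le_mul_right s this
    have e : (M + 1) * s = M * s + s := by ring
    constructor
    · omega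
    · omega
  · rintro u ⟨hu1, hu2⟩ v ⟨hv1, hv2⟩ hadj heq
    obtain ⟨hab, hr⟩ := hdecomp _ _ _ _ hu2 hv2 heq
    rcases hadj.2.2.2 with h | h | h
    · apply hadj.1
      apply Fin.ext
      rw [← Nat.div_add_mod u.val k, ← Nat.div_add_mod v.val k, h, hr]
    · have := lv_par h hv1
      omega
    · have := lv_par h hu1
      omega
  · rintro v ⟨hv1, hv2⟩ i hi1 hi2
    have hi3 : s * ((i - 1) / s) + (i - 1) % s = i - 1 := Nat.div_add_mod (i - 1) s
    have hr : (i - 1) % s < s := Nat.mod_lt _ hs
    set j := (i - 1) / s with hj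
    set r := (i - 1) % s with hrdef
    have hcomm : s * j = j * s := by ring
    by_cases hjl : j < lv M (v.val / k)
    · -- child of the node
      have hd := lv_dvd hjl
      have hlt := lv_child_lt hv1 hjl
      obtain ⟨u, hu1, hu2⟩ := hvert _ r hlt hr
      refine ⟨u, ⟨by rw [hu1]; exact hlt, by rw [hu2]; exact hr⟩, ⟨?_, ?_, ?_, ?_⟩, ?_⟩
      · rintro rfl
        have : 0 < 2 ^ j := by positivity
        omega
      · rw [hu2]; exact lt_of_lt_of_le hr (hbag _)
      · exact lt_of_lt_of_le hv2 (hbag _)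
      · right; right
        exact ⟨j, hd, hu1⟩
      · rw [hu1, hu2, lv_child M hd]
        omega
    · -- same node
      have hj2 : j = lv M (v.val / k) := by
        apply le_antisymm _ (by omega)
        by_contra hgt
        push Not at hgt
        have : (lv M (v.val / k) + 1) * s ≤ j * s := Nat.mul_le_mul_right s hgt
        have e : (lv M (v.val / k) + 1) * s = lv M (v.val / k) * s + s := by ring
        omega
      obtain ⟨u, hu1, hu2⟩ := hvert _ r hv1 hr
      have hrv : r < v.val % k := by
        rw [hj2] at hi3 hcomm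
        omega
      refine ⟨u, ⟨by rw [hu1]; exact hv1, by rw [hu2]; exact hr⟩, ⟨?_, ?_, ?_, ?_⟩, ?_⟩
      · rintro rfl
        omega
      · rw [hu2]; exact lt_of_lt_of_le hr (hbag _)
      · exact lt_of_lt_of_le hv2 (hbag _)
      · left; exact hu1
      · rw [hu1, hu2, ← hj2]
        omega
  · intro i hi1 hi2
    have hi3 : s * ((i - 1) / s) + (i - 1) % s = i - 1 := Nat.div_add_mod (i - 1) s
    have hr : (i - 1) % s < s := Nat.mod_lt _ hs
    set j := (i - 1) / s with hj
    set r := (i - 1) % s with hrdef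
    have hcomm : s * j = j * s := by ring
    have hjM : j ≤ M := by
      by_contra hgt
      push Not at hgt
      have : (M + 1) * s ≤ j * s := Nat.mul_le_mul_right s hgt
      omega
    have hpow : 0 < 2 ^ M := by positivity
    rcases hjM.lt_or_eq with hlt | heq
    · have h0 : (0 : ℕ) < 2 ^ M := hpow
      have hl0 : lv M 0 = M := by simp [lv]
      have hlt' : 0 + 2 ^ j < 2 ^ M := lv_child_lt h0 (by rw [hl0]; exact hlt)
      obtain ⟨u, hu1, hu2⟩ := hvert _ r hlt' hr
      refine ⟨u, ⟨by rw [hu1]; exact hlt', by rw [hu2]; exact hr⟩, ?_⟩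
      rw [hu1, hu2, lv_child M (dvd_zero _)]
      omega
    · obtain ⟨u, hu1, hu2⟩ := hvert 0 r hpow hr
      refine ⟨u, ⟨by rw [hu1]; exact hpow, by rw [hu2]; exact hr⟩, ?_⟩
      rw [hu1, hu2]
      have hl0 : lv M 0 = M := by simp [lv]
      rw [hl0, ← heq]
      omega

/-- There is an absolute constant `c > 0` such that for all `k ≥ 2` and all `n ≥ k ^ 2` some
chordal graph on `n` vertices with clique number `k` has `chiFF ≥ c * k * log n`. -/
theorem result : ∃ c : ℝ, 0 < c ∧ ∀ k : ℕ, 2 ≤ k → ∀ n : ℕ, k ^ 2 ≤ n →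
    ∃ G : SimpleGraph (Fin n), IsChordal G ∧ G.cliqueNum = k ∧
      c * (k : ℝ) * Real.log (n : ℝ) ≤ (chiFF G : ℝ) := by
  refine ⟨1 / 5, by norm_num, ?_⟩
  intro k hk n hn
  have hkn : 2 * k ≤ n := le_trans (by nlinarith) hn
  refine ⟨tg k n, tg_chordal k n, tg_cliqueNum k n hk hkn, ?_⟩
  set M := Nat.log 2 (n / k) with hM
  have hnk : n / k ≠ 0 := by
    have : 2 ≤ n / k := (Nat.le_div_iff_mul_le (by omega)).mpr hkn
    omega
  have h1 : 2 ^ M ≤ n / k := Nat.pow_log_le_self 2 hnk
  have h2 : n / k < 2 ^ (M + 1) := Nat.lt_pow_succ_log_self (by norm_num) _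
  have h3 : 2 ^ M * k ≤ n := (Nat.le_div_iff_mul_le (by omega)).mp h1
  have h4 : n < 2 ^ (M + 1) * k := (Nat.div_lt_iff_lt_mul (by omega)).mp h2
  have hw := tg_wall k n M hk h3
  have hnpos : 0 < n := by omega
  have h5 : n < 4 ^ (M + 1) := by
    have e1 : n * n < (2 ^ (M + 1) * k) * (2 ^ (M + 1) * k) := Nat.mul_lt_mul'' h4 h4
    have e2 : (2 ^ (M + 1) * k) * (2 ^ (M + 1) * k) = 4 ^ (M + 1) * k ^ 2 := by
      have : (4 : ℕ) ^ (M + 1) = 2 ^ (M + 1) * 2 ^ (M + 1) := by
        rw [show (4 : ℕ) = 2 * 2 by norm_num, mul_pow]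
      rw [this]; ring
    have e3 : 4 ^ (M + 1) * k ^ 2 ≤ 4 ^ (M + 1) * n := Nat.mul_le_mul_left _ hn
    have e4 : n * n < 4 ^ (M + 1) * n := by omega
    exact lt_of_mul_lt_mul_right e4 (Nat.zero_le _)
  have hlog : Real.log (n : ℝ) ≤ (M + 1 : ℝ) * Real.log 4 := by
    have h6 : (n : ℝ) ≤ (4 : ℝ) ^ (M + 1) := by exact_mod_cast h5.le
    have := Real.log_le_log (by exact_mod_cast hnpos) h6
    rw [Real.log_pow] at this
    push_cast at this
    exact this
  have hlog4 : Real.log 4 ≤ 7 / 5 := by
    have : Real.log 4 = 2 * Real.log 2 := by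
      rw [show (4 : ℝ) = 2 ^ 2 by norm_num, Real.log_pow]; norm_num
    rw [this]
    have := Real.log_two_lt_d9
    linarith
  have hs3 : (k : ℝ) ≤ 3 * ((k / 2 : ℕ) : ℝ) := by
    have : k ≤ 3 * (k / 2) := by omega
    exact_mod_cast this
  have hw' : ((M + 1 : ℝ)) * ((k / 2 : ℕ) : ℝ) ≤ (chiFF (tg k n) : ℝ) := by
    exact_mod_cast hw
  have hlog' : Real.log (n : ℝ) ≤ (M + 1 : ℝ) * (7 / 5) :=
    hlog.trans (mul_le_mul_of_nonneg_left hlog4 (by positivity))
  have hk0 : (0 : ℝ) ≤ (k : ℝ) := by positivity
  have hM0 : (0 : ℝ) ≤ (M + 1 : ℝ) := by positivity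
  calc 1 / 5 * (k : ℝ) * Real.log (n : ℝ) ≤ 1 / 5 * (k : ℝ) * ((M + 1 : ℝ) * (7 / 5)) :=
        mul_le_mul_of_nonneg_left hlog' (by positivity)
    _ ≤ (M + 1 : ℝ) * ((k / 2 : ℕ) : ℝ) := by nlinarith [mul_le_mul_of_nonneg_left hs3 hM0, mul_nonneg hM0 hk0]
    _ ≤ _ := hw'

end Pool.Agent.Results.MP_4aa424_co.FirstFitChordal
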